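import Pool.Agent.T9h14.GP.JTop

/-!
# The Hopf sign in dimension six for almost Hermitian curvature tensors

At a point of a Riemannian six-manifold let `J` be an orthogonal complex structure of the tangent
space. Then minus the Gauss–Bonnet–Chern integrand is at least its value for the constant curvature
`-κ` under each of the following conditions (`HermType`), with `T = R + κ` the difference of `R` and
the tensor of constant curvature `-κ`:

* (i) `R` is invariant under `J` (Gray's third identity), for all vectors `x`, `y` the sum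
  `T (x, y, x, y) + T (x, J y, x, J y) + T (x, J x, y, J y)` is nonpositive (`MixedNonpos`), and the
  curvature operator of `T` is nonpositive on the bivectors which `J` sends to their negatives
  (`OpAnti`);
* (ii) `R` satisfies Gray's second identity (as nearly Kähler manifolds do), and
  `|T (x, J x, y, J y)| ≤ -(T (x, y, x, y) + T (x, J y, x, J y))` for all vectors `x`, `y`
  (`BiNonpos`); for `κ = 0` and a Kähler curvature tensor this says that the holomorphic bisectional
  curvature is nonpositive.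

If moreover all sectional curvatures of such a tensor `S` (with `κ = 0`) are nonpositive, the same
holds for `S - ∑ (x_k ∧ y_k)² - δ · (unit tensor)` with arbitrary vectors `x_k`, `y_k`.

The main step (`Pool/Agent/T9h14/GP/Pos.lean`) is that for a Hermitian form `ρ` on `ℂ³ ⊗ ℂ³` with
`ρ (x ⊗ y, x ⊗ y) ≥ 0` the double alternating sum
`∑ ε(x) ε(x') ε(y) ε(y') ∏_b ρ (x_b x'_b, y_b y'_b)` is nonnegative.
-/

set_option autoImplicit false

namespace Pool.Agent.Results.MP_5a30bb_gt.AlmostHermitian

open Pool.Agent.W666.GB Pool.Agent.TH598.GV Pool.Agent.T9h14.GP MeasureTheory Module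
open Pool.Agent.W669.HD (addT unitT)
open Pool.Agent.Y519.HB (sqDec)

/-- **Hopf sign in dimension six** for almost Hermitian curvature tensors: the pointwise
inequality, the form with squares, and the integrated forms. -/
theorem result :
    (∀ (V : Type) [NormedAddCommGroup V] [InnerProductSpace ℝ V]
      (e : OrthonormalBasis (Fin 3 × Bool) ℝ V) (R : V → V → V → V → ℝ), AlgCurv R →
      ∀ (J : V →ₗ[ℝ] V) (κ : ℝ), 0 ≤ κ → HermType R κ J →
        roundGB 3 κ ≤ (-1) ^ 3 * gbc e R) ∧
    (∀ (V : Type) [NormedAddCommGroup V] [InnerProductSpace ℝ V]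
      (e : OrthonormalBasis (Fin 3 × Bool) ℝ V) (S T : V → V → V → V → ℝ), AlgCurv S →
      ∀ (J : V →ₗ[ℝ] V), HermType S 0 J → (∀ a b, S a b a b ≤ 0) →
      ∀ (δ : ℝ) (n : ℕ) (x y : Fin n → V), 0 ≤ δ →
        (∀ a b c d, T a b c d = - (∑ k, sqDec (x k) (y k) a b c d) - δ * unitT a b c d) →
        roundGB 3 δ ≤ (-1) ^ 3 * gbc e (addT S T)) ∧
    (∀ (M : Type) [MeasurableSpace M] (μ : Measure M) (K : CurvField 3 M) (κ : M → ℝ)
      (J : ∀ p, K.V p →ₗ[ℝ] K.V p), (∀ p, 0 ≤ κ p ∧ HermType (K.R p) (κ p) (J p)) →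
      0 ≤ (-1) ^ 3 * ∫ p, K.gb p ∂μ ∧
      (Integrable K.gb μ → Integrable (fun p => roundGB 3 (κ p)) μ →
        ∫ p, roundGB 3 (κ p) ∂μ ≤ (-1) ^ 3 * ∫ p, K.gb p ∂μ)) :=
  ⟨fun _ _ _ e _ hR J _ hκ h => point_herm e hR hκ J h,
    fun _ _ _ e _ _ hS J h hs _ _ _ _ hδ hT => herm_squares e hS J h hs hδ hT,
    fun _ _ μ K κ J h => field_herm μ K κ J h⟩

end Pool.Agent.Results.MP_5a30bb_gt.AlmostHermitian
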