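import Pool.Agent.T9h14.BQ.Top3

/-!
# The Hopf sign in every even dimension for sums over pairs of blocks with nonpositive biquadratic
curvature

Let the tangent space (of any even dimension `2 m`) be an orthogonal sum of blocks `U i` of any
dimensions and of pairs of blocks `A j`, `B j`, where `dim A j ≤ 3` and the dimension of `B j` is
arbitrary. `BiquadBlocks δ R` (`Pool/Agent/T9h14/BQ/Top3.lean`) says that

`R = ∑ S i + ∑ F j - ∑ (x_k ∧ y_k)² - δ · (unit tensor)`,

where `S i` lives on `U i` and has the Hopf sign on all even-dimensional subspaces of `U i`, each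
`x_k` and each `y_k` lies in one of the blocks, and `F j` is a curvature tensor of the pair `A j`,
`B j`: it lives on `A j + B j`, `F (a, a', ·, ·) = 0` and `F (b, b', ·, ·) = 0`, and the only
further hypothesis is `F (a, b, a, b) ≤ 0` for `a` in `A j` and `b` in `B j`.

So `-F (a, b, a, b)` is an arbitrary nonnegative biquadratic form on `A j × B j`; for `3 × 3` such
forms need not be sums of squares (Choi), and then `F` differs from every tensor with nonpositive
curvature operator by more than a four-form.

(1) `(-1)^m` times the Gauss–Bonnet–Chern integrand is at least its value for constant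
curvature `-δ`. (2) The integrated forms.
-/

set_option autoImplicit false

namespace Pool.Agent.Results.MP_5a30bb_gt.BiquadraticPairs

open Pool.Agent.W666.GB Pool.Agent.W669.HD Pool.Agent.T9h14.BQ MeasureTheory

/-- **Hopf sign in every even dimension** for pairs of blocks with nonpositive biquadratic
curvature. -/
theorem result :
    (∀ (m : ℕ) (V : Type) [NormedAddCommGroup V] [InnerProductSpace ℝ V]
      (e : OrthonormalBasis (Fin m × Bool) ℝ V) (R : V → V → V → V → ℝ) (δ : ℝ),
      0 ≤ δ → BiquadBlocks δ R → roundGB m δ ≤ (-1) ^ m * gbc e R) ∧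
    (∀ (m : ℕ) (M : Type) [MeasurableSpace M] (μ : Measure M) (K : CurvField m M) (δ : M → ℝ),
      (∀ p, 0 ≤ δ p ∧ BiquadBlocks (δ p) (K.R p)) →
      0 ≤ (-1) ^ m * ∫ p, K.gb p ∂μ ∧
      (Integrable K.gb μ → Integrable (fun p => roundGB m (δ p)) μ →
        ∫ p, roundGB m (δ p) ∂μ ≤ (-1) ^ m * ∫ p, K.gb p ∂μ)) :=
  ⟨fun _ _ _ _ e _ _ hδ h => bq_bound e hδ h, fun _ _ _ μ K δ h => field_bq μ K δ h⟩

end Pool.Agent.Results.MP_5a30bb_gt.BiquadraticPairs
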