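import Pool.Agent.T9h14.QD.Sos

/-!
# The Hopf sign in every even dimension for sums over pairs of blocks of any dimensions

Let the tangent space (of any even dimension `2 m`) be an orthogonal sum of blocks `U i` and of
pairs of blocks `A j`, `B j`, of any dimensions. `QuatBlocks δ R`
(`Pool/Agent/T9h14/QD/Top4.lean`) says that

`R = ∑ S i + ∑ F j - ∑ (x_k ∧ y_k)² - δ · (unit tensor)`,

where `S i` lives on `U i` and has the Hopf sign on all even-dimensional subspaces of `U i`, each
`x_k` and each `y_k` lies in one of the blocks, and `F j` is a tensor of the pair `A j`, `B j` with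

`-F j = ∑ skewCurv a_k - ∑ knSq h_l`,

for any numbers of skew forms `a_k` and symmetric forms `h_l` which pair `A j` with `B j`. Here
`skewCurv a` is the curvature tensor with sectional curvatures `3 a(x,y)²`, and `-knSq h` the one
with sectional curvatures `h(x,y)² - h(x,x) h(y,y)`; the latter can be positive on one plane and
negative on another.

(1) `(-1)^m` times the Gauss–Bonnet–Chern integrand is at least its value for constant
curvature `-δ`. (2) The integrated forms. (3) The hypothesis on `F j` holds if `F j` is a curvature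
tensor of the pair with `F (a, a', ·, ·) = 0`, `F (b, b', ·, ·) = 0` whose biquadratic form
`-F (a, b, a, b)` is a sum of squares of bilinear forms.

The proof: the integrand is a Gaussian average of Moore determinants of quaternionic Hermitian
matrices, which are here of the form `(0, Z; Z*, 0)`, with determinant `(-1)^n |det Z|²`, and the
determinant `|det Z|²` of a quaternionic matrix (Study) is nonnegative.
-/

set_option autoImplicit false

namespace Pool.Agent.Results.MP_5a30bb_gt.QuaternionicPairs

open Pool.Agent.W666.GB Pool.Agent.W669.HD Pool.Agent.T9h14.BQ Pool.Agent.T9h14.QD MeasureTheory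

/-- **Hopf sign in every even dimension** for pairs of blocks with quaternionic tensors. -/
theorem result :
    (∀ (m : ℕ) (V : Type) [NormedAddCommGroup V] [InnerProductSpace ℝ V]
      (e : OrthonormalBasis (Fin m × Bool) ℝ V) (R : V → V → V → V → ℝ) (δ : ℝ),
      0 ≤ δ → QuatBlocks δ R → roundGB m δ ≤ (-1) ^ m * gbc e R) ∧
    (∀ (m : ℕ) (M : Type) [MeasurableSpace M] (μ : Measure M) (K : CurvField m M) (δ : M → ℝ),
      (∀ p, 0 ≤ δ p ∧ QuatBlocks (δ p) (K.R p)) →
      0 ≤ (-1) ^ m * ∫ p, K.gb p ∂μ ∧
      (Integrable K.gb μ → Integrable (fun p => roundGB m (δ p)) μ →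
        ∫ p, roundGB m (δ p) ∂μ ≤ (-1) ^ m * ∫ p, K.gb p ∂μ)) ∧
    (∀ (V : Type) [NormedAddCommGroup V] [InnerProductSpace ℝ V] [FiniteDimensional ℝ V]
      (A B : Submodule ℝ V) (F : V → V → V → V → ℝ) (q : ℕ) (φ : Fin q → V →ₗ[ℝ] V →ₗ[ℝ] ℝ),
      (∀ a ∈ A, ∀ b ∈ B, inner ℝ a b = 0) → PairTensor A B F →
      (∀ a ∈ A, ∀ b ∈ B, - F a b a b = ∑ k, φ k a b ^ 2) → QuatPair A B F) :=
  ⟨fun _ _ _ _ e _ _ hδ h => qb_bound e hδ h, fun _ _ _ μ K δ h => field_qb μ K δ h,
    fun _ _ _ _ _ _ _ _ φ hAB hF h => sos_quat hAB hF φ h⟩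

end Pool.Agent.Results.MP_5a30bb_gt.QuaternionicPairs
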