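import Pool.Agent.T9h14.GP.Hand1

/-!
# The Hopf sign in dimension six for curvature tensors invariant under a reflection

At a point of a Riemannian six-manifold let the curvature tensor be invariant under the orthogonal
reflection in a three-dimensional subspace `A` of the tangent space; `B` is the complement of `A`.
Then minus the Gauss–Bonnet–Chern integrand is at least its value for the constant curvature `-κ`
under each of the following conditions (`SplitType`):

* (i) the complex sectional curvatures of the planes spanned by a vector of the complexification of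
  `A` and one of the complexification of `B` are at most `-κ`, and the curvature operator is at most
  `-κ` on the bivectors of `A` plus the bivectors of `B`;
* (ii) `R (a, a', b, b') = 0` for `a, a'` in `A` and `b, b'` in `B`, and the sectional curvatures of
  the planes in `A`, of the planes in `B` and of the planes spanned by a vector of `A` and a vector
  of `B` are at most `-κ` (there is no hypothesis on other planes).

If moreover all sectional curvatures of such a tensor `S` (with `κ = 0`) are nonpositive, the same
holds for `S - ∑ (x_k ∧ y_k)² - δ · (unit tensor)` with arbitrary vectors `x_k`, `y_k`.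

The main step (`Pool/Agent/T9h14/GP/Pos.lean`) is that for a Hermitian form `ρ` on `ℂ³ ⊗ ℂ³` with
`ρ (x ⊗ y, x ⊗ y) ≥ 0` the double alternating sum
`∑ ε(x) ε(x') ε(y) ε(y') ∏_b ρ (x_b x'_b, y_b y'_b)` is nonnegative: a strictly positive `ρ` is made
doubly stochastic by a minimisation over pairs of matrices of determinant one (operator scaling), and
for doubly stochastic `ρ` the sum is a Gaussian average of a cubic symmetric function of the
eigenvalues of compressions of `ρ`, which is nonnegative by Schur's inequality.
-/

set_option autoImplicit false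

namespace Pool.Agent.Results.MP_5a30bb_gt.ReflectionSplit

open Pool.Agent.W666.GB Pool.Agent.TH598.GV Pool.Agent.T9h14.GP MeasureTheory Module
open Pool.Agent.W669.HD (addT unitT)
open Pool.Agent.Y519.HB (sqDec)

/-- **Hopf sign in dimension six** for curvature tensors with a reflection symmetry: the pointwise
inequality, the form with squares, and the integrated forms. -/
theorem result :
    (∀ (V : Type) [NormedAddCommGroup V] [InnerProductSpace ℝ V]
      (e : OrthonormalBasis (Fin 3 × Bool) ℝ V) (R : V → V → V → V → ℝ), AlgCurv R →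
      ∀ (A : Submodule ℝ V), finrank ℝ A = 3 → ∀ κ : ℝ, 0 ≤ κ → SplitType R κ A →
        roundGB 3 κ ≤ (-1) ^ 3 * gbc e R) ∧
    (∀ (V : Type) [NormedAddCommGroup V] [InnerProductSpace ℝ V]
      (e : OrthonormalBasis (Fin 3 × Bool) ℝ V) (S T : V → V → V → V → ℝ), AlgCurv S →
      ∀ (A : Submodule ℝ V), finrank ℝ A = 3 → SplitType S 0 A → (∀ a b, S a b a b ≤ 0) →
      ∀ (δ : ℝ) (n : ℕ) (x y : Fin n → V), 0 ≤ δ →
        (∀ a b c d, T a b c d = - (∑ k, sqDec (x k) (y k) a b c d) - δ * unitT a b c d) →
        roundGB 3 δ ≤ (-1) ^ 3 * gbc e (addT S T)) ∧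
    (∀ (M : Type) [MeasurableSpace M] (μ : Measure M) (K : CurvField 3 M) (κ : M → ℝ)
      (A : ∀ p, Submodule ℝ (K.V p)),
      (∀ p, 0 ≤ κ p ∧ finrank ℝ (A p) = 3 ∧ SplitType (K.R p) (κ p) (A p)) →
      0 ≤ (-1) ^ 3 * ∫ p, K.gb p ∂μ ∧
      (Integrable K.gb μ → Integrable (fun p => roundGB 3 (κ p)) μ →
        ∫ p, roundGB 3 (κ p) ∂μ ≤ (-1) ^ 3 * ∫ p, K.gb p ∂μ)) :=
  ⟨fun _ _ _ e _ hR A hA _ hκ h => point_split e hR hκ A hA h,
    fun _ _ _ e _ _ hS A hA h hs _ _ _ _ hδ hT => point_squares e hS A hA h hs hδ hT,
    fun _ _ μ K κ A h => field_split μ K κ A h⟩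

end Pool.Agent.Results.MP_5a30bb_gt.ReflectionSplit
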